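import Pool.Agent.helper83.GR.Spec

/-!
# Project gr: SEC, the sum over a coset
-/

set_option autoImplicit false

namespace Pool.Agent.GR

open Pool.Agent.helper58.DC Pool.Agent.DI

section

variable {G E A : Type} [Group G] [Group E] [Group A] (X : Extension G E A)

theorem SEC_inc_inv (e : E) (g : G) : X.inc ((X.act e)⁻¹ g) = e⁻¹ * X.inc g * e := by
  have h := X.act_spec e⁻¹ g
  rw [map_inv, inv_inv] at h
  exact h

theorem SEC_act_mul (e : E) (h g : G) :
    (X.act (e * X.inc h))⁻¹ g = h⁻¹ * (X.act e)⁻¹ g * h := by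
  apply X.inc_injective
  rw [SEC_inc_inv, map_mul, map_mul, SEC_inc_inv, map_inv, mul_inv_rev]
  group

theorem SEC_mem (N : Subgroup E) (e : E) (he : e ∈ N) (g : G) (hg : g ∈ N.comap X.inc) :
    (X.act e)⁻¹ g ∈ N.comap X.inc := by
  rw [Subgroup.mem_comap, SEC_inc_inv]
  exact N.mul_mem (N.mul_mem (N.inv_mem he) hg) he

theorem SEC_map (N : Subgroup E) (e : E) (he : e ∈ N) :
    (N.comap X.inc).map (X.act e).toMonoidHom = N.comap X.inc := by
  ext g
  constructor
  · rintro ⟨x, hx, rfl⟩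
    show X.inc (X.act e x) ∈ N
    rw [X.act_spec]
    exact N.mul_mem (N.mul_mem he hx) (N.inv_mem he)
  · intro hg
    exact ⟨(X.act e)⁻¹ g, SEC_mem X N e he g hg, MulAut.apply_inv_self _ _ _⟩

end

theorem SEC_fs {ι : Type} [Fintype ι] (P : ι → Prop) [DecidablePred P] (f : ι → ℂ) :
    ∑ᶠ i ∈ {i | P i}, f i = ∑ i ∈ Finset.univ.filter P, f i := by
  rw [finsum_mem_eq_finite_toFinset_sum _ (Set.toFinite _)]
  refine Finset.sum_congr ?_ fun _ _ => rfl
  ext i
  simp

theorem SEC (hCNT : CNT_stmt) (hPPT : PPT_stmt) (hBR0 : BR0_stmt) (hBR2 : BR2_stmt)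
    (hBCL : BCL_stmt) (hSFC : SFC_stmt) : SEC_stmt := by
  intro p M hS G E A _ _ _ _ _ X χ a σ s hs N
  classical
  have := Fintype.ofFinite G
  have := Fintype.ofFinite E
  set H : Subgroup G := N.comap X.inc with hH
  set B : Set (G → ℂ) := Blk M χ H with hB
  have hBI : B ⊆ IrrOn H := fun ψ hψ => hψ.1
  obtain ⟨hsf, -, -⟩ := hSFC G H B hBI
  have hBC : BC M H B := hBCL G M χ H
  rw [SEC_fs, SEC_fs]
  set SE : Finset E := Finset.univ.filter (fun e => e ∈ N ∧ X.proj e = a) with hSE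
  rcases SE.eq_empty_or_nonempty with hemp | ⟨e₀, he₀⟩
  · rw [hemp, Finset.sum_empty, Finset.sum_empty]
  obtain ⟨he₀N, he₀a⟩ : e₀ ∈ N ∧ X.proj e₀ = a := by
    rw [hSE, Finset.mem_filter] at he₀
    exact he₀.2
  set α : MulAut G := X.act e₀ with hα
  have hcH : (Nat.card H : ℂ) ≠ 0 := by exact_mod_cast Nat.card_pos.ne'
  -- the elements of `SE`
  have hproj : ∀ h : G, X.proj (X.inc h) = 1 := fun h => (X.exact _).2 ⟨h, rfl⟩
  have hSEmem : ∀ e ∈ SE, ∃ h ∈ H, e = e₀ * X.inc h := by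
    intro e he
    rw [hSE, Finset.mem_filter] at he
    obtain ⟨-, heN, hea⟩ := he
    have h1 : X.proj (e₀⁻¹ * e) = 1 := by
      rw [map_mul, map_inv, he₀a, hea, inv_mul_cancel]
    obtain ⟨h, hh⟩ := (X.exact _).1 h1
    refine ⟨h, ?_, ?_⟩
    · show X.inc h ∈ N
      rw [hh]
      exact N.mul_mem (N.inv_mem he₀N) heN
    · rw [hh, mul_inv_cancel_left]
  have hmemSE : ∀ h ∈ H, e₀ * X.inc h ∈ SE := by
    intro h hh
    rw [hSE, Finset.mem_filter]
    refine ⟨Finset.mem_univ _, N.mul_mem he₀N hh, ?_⟩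
    rw [map_mul, he₀a, hproj, mul_one]
  have hcount : ∀ P : E → Prop, (SE.filter P).card =
      (Finset.univ.filter (fun h : G => h ∈ H ∧ P (e₀ * X.inc h))).card := by
    intro P
    symm
    refine Finset.card_nbij (fun h => e₀ * X.inc h) ?_ ?_ ?_
    · intro h hh
      simp only [Finset.coe_filter, Finset.mem_univ, true_and, Set.mem_ofPred_eq] at hh
      rw [Finset.mem_coe, Finset.mem_filter]
      exact ⟨hmemSE h hh.1, hh.2⟩
    · intro h _ h' _ hhh
      exact X.inc_injective (mul_left_cancel hhh)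
    · intro e he
      rw [Finset.mem_coe, Finset.mem_filter] at he
      obtain ⟨h, hh, rfl⟩ := hSEmem e he.1
      exact ⟨h, by simp only [Finset.coe_filter, Finset.mem_univ, true_and, Set.mem_ofPred_eq]
                   exact ⟨hh, he.2⟩, rfl⟩
  have hcardSE : (SE.card : ℂ) = Nat.card H := by
    have h1 := hcount (fun _ => True)
    rw [Finset.filter_true] at h1
    rw [h1, Nat.card_eq_fintype_card, Fintype.card_subtype]
    simp
  -- invariance of `Sf`
  have hinv : ∀ e ∈ SE, ∀ x b : G, Sf B (((X.act e)⁻¹ x) ^ s) b = Sf B ((α⁻¹ x) ^ s) b := by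
    intro e he x b
    obtain ⟨h, hh, rfl⟩ := hSEmem e he
    have h1 : ((X.act (e₀ * X.inc h))⁻¹ x) ^ s = h⁻¹ * (α⁻¹ x) ^ s * (h⁻¹)⁻¹ := by
      rw [SEC_act_mul]
      have h2 : h⁻¹ * (X.act e₀)⁻¹ x * h = MulAut.conj h⁻¹ ((X.act e₀)⁻¹ x) := by
        rw [MulAut.conj_apply, inv_inv]
      rw [h2, ← map_pow, MulAut.conj_apply]
    rw [h1]
    exact (hsf _ _ h⁻¹ (H.inv_mem hh)).1
  -- the left side
  set Λ : ℂ := ∑ᶠ g ∈ (H : Set G), Sf B ((α⁻¹ g) ^ s) g with hΛ
  have hleft : ∀ e ∈ SE, (cnt M χ H (X.act e) σ : ℂ) = Λ / Nat.card H := by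
    intro e he
    have heN : e ∈ N := by
      rw [hSE, Finset.mem_filter] at he
      exact he.2.1
    have h1 := hCNT p M G H χ (X.act e) σ s (SEC_map X N e heN) hs
    rw [eq_div_iff hcH, mul_comm, h1]
    exact finsum_mem_congr rfl fun g _ => hinv e he g g
  rw [Finset.sum_congr rfl hleft, Finset.sum_const, nsmul_eq_mul, hcardSE,
    mul_div_cancel₀ _ hcH]
  -- `Λ` in terms of `y` and `v`
  set Φ : G → ℂ := fun y => ∑ᶠ v ∈ {v : G | v ∈ Cz H y ∧ PReg p v},
    Sf B ((α⁻¹ (y * v)) ^ s) (y * v) with hΦ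
  have hΛ2 : Λ = ∑ y ∈ Finset.univ.filter (fun y : G => y ∈ H ∧ PEl p y), Φ y := by
    rw [hΛ, hPPT p hS.pr G H (fun g => Sf B ((α⁻¹ g) ^ s) g), SEC_fs]
  rw [hΛ2]
  -- the right side
  have hright : ∀ e ∈ SE, (∑ᶠ y ∈ {y : G | y ∈ N.comap X.inc ∧ PEl p y ∧ ((X.act e)⁻¹ y) ^ s = y},
      tau p M χ (Cz (N.comap X.inc) y) (X.act e)) =
      ∑ y ∈ Finset.univ.filter (fun y : G => y ∈ H ∧ PEl p y),
        if ((X.act e)⁻¹ y) ^ s = y then Φ y / Nat.card (Cz H y) else 0 := by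
    intro e he
    have heN : e ∈ N := by
      rw [hSE, Finset.mem_filter] at he
      exact he.2.1
    rw [SEC_fs, ← Finset.sum_filter, Finset.filter_filter]
    have h0 : Finset.univ.filter (fun y : G => y ∈ N.comap X.inc ∧ PEl p y ∧
        ((X.act e)⁻¹ y) ^ s = y) = Finset.univ.filter (fun y : G => (y ∈ H ∧ PEl p y) ∧
        ((X.act e)⁻¹ y) ^ s = y) := by
      ext y
      simp only [Finset.mem_filter, Finset.mem_univ, true_and, and_assoc, hH]
    rw [h0]
    refine Finset.sum_congr rfl fun y hy => ?_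
    rw [Finset.mem_filter] at hy
    obtain ⟨-, ⟨hyH, hyp⟩, hye⟩ := hy
    unfold tau
    rw [hΦ]
    congr 1
    refine finsum_mem_congr rfl fun v hv => ?_
    obtain ⟨hvL, hvp⟩ := hv
    obtain ⟨hvH, hvc⟩ := hvL
    have hyv : y * v = v * y := by
      exact (Subgroup.mem_centralizer_iff.1 hvc) y (Set.mem_singleton y)
    have hv'H : (X.act e)⁻¹ v ∈ H := SEC_mem X N e heN v hvH
    have hcomm : Commute ((X.act e)⁻¹ y) ((X.act e)⁻¹ v) := by
      show _ * _ = _ * _
      rw [← map_mul, hyv, map_mul]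
    have hv'c : (X.act e)⁻¹ v ∈ Cz H y := by
      refine ⟨hv'H, Subgroup.mem_centralizer_iff.2 fun z hz => ?_⟩
      rw [Set.mem_singleton_iff] at hz
      subst hz
      have h2 := hcomm.pow_left s
      rw [hye] at h2
      exact h2
    have hord : orderOf ((X.act e)⁻¹ v) = orderOf v :=
      MulEquiv.orderOf_eq ((X.act e)⁻¹ : MulAut G) v
    have hv'p : PReg p ((X.act e)⁻¹ v) := by
      unfold PReg
      rw [hord]
      exact hvp
    have hv's : ((X.act e)⁻¹ v) ^ s = (X.act e)⁻¹ v := by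
      have h2 := hs.reg (orderOf ((X.act e)⁻¹ v)) (orderOf_dvd_natCard _) hv'p
      have h3 := (pow_eq_pow_iff_modEq (x := (X.act e)⁻¹ v)).2 h2
      rwa [pow_one] at h3
    have h4 := hBR2 p M hS G H y hyH hyp χ ((X.act e)⁻¹ v) hv'c v ⟨hvH, hvc⟩ hv'p hvp
    rw [← h4]
    have h5 : y * (X.act e)⁻¹ v = ((X.act e)⁻¹ (y * v)) ^ s := by
      rw [map_mul, hcomm.mul_pow, hye, hv's]
    rw [h5]
    exact hinv e he _ _
  rw [Finset.sum_congr rfl hright, Finset.sum_comm]
  refine Finset.sum_congr rfl fun y hy => ?_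
  rw [Finset.mem_filter] at hy
  obtain ⟨-, hyH, hyp⟩ := hy
  rw [← Finset.sum_filter, Finset.sum_const, nsmul_eq_mul, hcount]
  have hcL : (Nat.card (Cz H y) : ℂ) ≠ 0 := by exact_mod_cast Nat.card_pos.ne'
  set x : G := (α⁻¹ y) ^ s with hx
  have hxH : x ∈ H := H.pow_mem (SEC_mem X N e₀ he₀N y hyH) s
  have hcond : ∀ h : G, ((X.act (e₀ * X.inc h))⁻¹ y) ^ s = y ↔ h⁻¹ * x * h = y := by
    intro h
    have h1 : ((X.act (e₀ * X.inc h))⁻¹ y) ^ s = h⁻¹ * x * h := by
      rw [SEC_act_mul]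
      have h2 : h⁻¹ * (X.act e₀)⁻¹ y * h = MulAut.conj h⁻¹ ((X.act e₀)⁻¹ y) := by
        rw [MulAut.conj_apply, inv_inv]
      rw [h2, ← map_pow, MulAut.conj_apply, inv_inv]
    rw [h1]
  simp only [hcond]
  by_cases hex : ∃ h₀ ∈ H, h₀⁻¹ * x * h₀ = y
  · obtain ⟨h₀, hh₀, hh₀y⟩ := hex
    have hc : ((Finset.univ.filter (fun h : G => h ∈ H ∧ h⁻¹ * x * h = y)).card : ℂ) =
        Nat.card (Cz H y) := by
      rw [Nat.card_eq_fintype_card, Fintype.card_subtype]
      congr 1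
      symm
      refine Finset.card_nbij (fun l => h₀ * l) ?_ ?_ ?_
      · intro l hl
        simp only [Finset.coe_filter, Finset.mem_univ, true_and, Set.mem_ofPred_eq] at hl ⊢
        obtain ⟨hlH, hlc⟩ := hl
        have hyl : y * l = l * y :=
          (Subgroup.mem_centralizer_iff.1 hlc) y (Set.mem_singleton y)
        refine ⟨H.mul_mem hh₀ hlH, ?_⟩
        calc (h₀ * l)⁻¹ * x * (h₀ * l) = l⁻¹ * (h₀⁻¹ * x * h₀) * l := by group
          _ = l⁻¹ * (y * l) := by rw [hh₀y, mul_assoc]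
          _ = y := by rw [hyl, inv_mul_cancel_left]
      · intro l _ l' _ hll
        exact mul_left_cancel hll
      · intro h hh
        simp only [Finset.coe_filter, Finset.mem_univ, true_and, Set.mem_ofPred_eq] at hh
        obtain ⟨hhH, hhy⟩ := hh
        refine ⟨h₀⁻¹ * h, ?_, mul_inv_cancel_left _ _⟩
        simp only [Finset.coe_filter, Finset.mem_univ, true_and, Set.mem_ofPred_eq]
        refine ⟨H.mul_mem (H.inv_mem hh₀) hhH, Subgroup.mem_centralizer_iff.2 fun z hz => ?_⟩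
        rw [Set.mem_singleton_iff] at hz
        subst hz
        have h1 : x = h₀ * z * h₀⁻¹ := by
          rw [← hh₀y]
          group
        have h2 : x * h = h * z := by
          rw [← hhy]
          group
        calc z * (h₀⁻¹ * h) = h₀⁻¹ * (h₀ * z * h₀⁻¹ * h) := by group
          _ = h₀⁻¹ * (h * z) := by rw [← h1, h2]
          _ = h₀⁻¹ * h * z := by rw [mul_assoc]
    rw [hc, mul_div_cancel₀ _ hcL]
  · -- no conjugation: `Φ y = 0`
    have hzero : Φ y = 0 := by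
      rw [hΦ]
      show ∑ᶠ v ∈ {v : G | v ∈ Cz H y ∧ PReg p v}, Sf B ((α⁻¹ (y * v)) ^ s) (y * v) = 0
      rw [finsum_mem_congr (g := fun _ => (0 : ℂ)) rfl, finsum_mem_zero]
      intro v hv
      obtain ⟨⟨hvH, hvc⟩, hvp⟩ := hv
      have hyv : y * v = v * y :=
        (Subgroup.mem_centralizer_iff.1 hvc) y (Set.mem_singleton y)
      have hcomm : Commute (α⁻¹ y) (α⁻¹ v) := by
        show _ * _ = _ * _
        rw [← map_mul, hyv, map_mul]
      have hord : orderOf (α⁻¹ v) = orderOf v := MulEquiv.orderOf_eq (α⁻¹ : MulAut G) v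
      have hv'p : PReg p (α⁻¹ v) := by
        unfold PReg
        rw [hord]
        exact hvp
      have hv's : (α⁻¹ v) ^ s = α⁻¹ v := by
        have h2 := hs.reg (orderOf (α⁻¹ v)) (orderOf_dvd_natCard _) hv'p
        have h3 := (pow_eq_pow_iff_modEq (x := α⁻¹ v)).2 h2
        rwa [pow_one] at h3
      have h5 : (α⁻¹ (y * v)) ^ s = x * α⁻¹ v := by
        rw [map_mul, hcomm.mul_pow, hv's]
      rw [h5]
      have hxp : PEl p x := by
        obtain ⟨k, hk⟩ := hyp
        refine ⟨k, ?_⟩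
        rw [hx, ← pow_mul, mul_comm, pow_mul, ← map_pow, hk, map_one, one_pow]
      refine hBR0 p M hS G H B hBC x hxH (α⁻¹ v) (SEC_mem X N e₀ he₀N v hvH) y hyH v hvH
        hxp hyp hv'p hvp (hcomm.pow_left s) hyv ?_
      intro h hh hcon
      exact hex ⟨h, hh, hcon⟩
    rw [hzero, zero_div, mul_zero]

end Pool.Agent.GR
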